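import Mathlib

namespace Pool.Agent.Results.MP_c087c9_gt.Disproof

/-- The surjective span of a metric space, with values in `[0, ∞]`: the supremum, over all
connected sets `C ⊆ X × X` both of whose projections are all of `X`, of the infimum of
`d (x, y)` over `(x, y) ∈ C`. -/
noncomputable def surjectiveSpan (X : Type) [MetricSpace X] : ENNReal :=
  ⨆ (C : Set (X × X)) (_ : IsConnected C)
    (_ : Prod.fst '' C = Set.univ ∧ Prod.snd '' C = Set.univ), ⨅ p ∈ C, edist p.1 p.2

/-- The surjective semi-span of a metric space, with values in `[0, ∞]`: the supremum, over all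
connected sets `C ⊆ X × X` at least one of whose projections is all of `X`, of the infimum of
`d (x, y)` over `(x, y) ∈ C`. -/
noncomputable def surjectiveSemispan (X : Type) [MetricSpace X] : ENNReal :=
  ⨆ (C : Set (X × X)) (_ : IsConnected C)
    (_ : Prod.fst '' C = Set.univ ∨ Prod.snd '' C = Set.univ), ⨅ p ∈ C, edist p.1 p.2

/-- The spiral `t ↦ (2 + arctan t) e^{it}` in the complex plane. -/
noncomputable def spiral (t : ℝ) : ℂ :=
  ((2 + Real.arctan t : ℝ) : ℂ) * Complex.exp (t * Complex.I)

theorem radius_pos (t : ℝ) : 0 < 2 + Real.arctan t := by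
  have h1 := Real.neg_pi_div_two_lt_arctan t
  have h2 := Real.pi_lt_d2
  linarith

theorem norm_spiral (t : ℝ) : ‖spiral t‖ = 2 + Real.arctan t := by
  unfold spiral
  rw [norm_mul, Complex.norm_exp_ofReal_mul_I, mul_one, Complex.norm_real, Real.norm_eq_abs,
    abs_of_pos (radius_pos t)]

theorem continuous_spiral : Continuous spiral := by
  unfold spiral
  have h : Continuous fun t : ℝ => ((2 + Real.arctan t : ℝ) : ℂ) :=
    Complex.continuous_ofReal.comp (continuous_const.add Real.continuous_arctan)
  exact h.mul (Complex.continuous_exp.comp (Complex.continuous_ofReal.mul continuous_const))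

theorem spiral_add_pi (t : ℝ) : spiral (t + Real.pi) =
    -(((2 + Real.arctan (t + Real.pi) : ℝ) : ℂ) * Complex.exp (t * Complex.I)) := by
  unfold spiral
  have : Complex.exp (((t + Real.pi : ℝ) : ℂ) * Complex.I) = - Complex.exp (t * Complex.I) := by
    push_cast
    rw [add_mul, Complex.exp_add, Complex.exp_pi_mul_I]
    ring
  rw [this]
  ring

theorem dist_spiral (t : ℝ) : 4 - Real.pi ≤ dist (spiral t) (spiral (t + Real.pi)) := by
  rw [dist_eq_norm, spiral_add_pi, sub_neg_eq_add]
  unfold spiral
  rw [← add_mul, norm_mul, Complex.norm_exp_ofReal_mul_I, mul_one, ← Complex.ofReal_add,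
    Complex.norm_real, Real.norm_eq_abs]
  refine le_trans ?_ (le_abs_self _)
  have h1 := Real.neg_pi_div_two_lt_arctan t
  have h2 := Real.neg_pi_div_two_lt_arctan (t + Real.pi)
  linarith

/-- The space: a half-spiral in the plane. -/
def space : Set ℂ := spiral '' Set.Ici (0 : ℝ)

/-- There is a bounded connected subset `S` of the plane whose surjective semi-span is strictly
greater than twice its surjective span. -/
theorem result : ∃ S : Set ℂ, IsConnected S ∧ Bornology.IsBounded S ∧
    2 * surjectiveSpan S < surjectiveSemispan S := by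
  refine ⟨space, ?_, ?_, ?_⟩
  · exact (isConnected_Ici).image _ continuous_spiral.continuousOn
  · refine (Metric.isBounded_closedBall (x := (0 : ℂ)) (r := 4)).subset ?_
    rintro _ ⟨t, -, rfl⟩
    rw [mem_closedBall_zero_iff, norm_spiral]
    have h1 := Real.arctan_lt_pi_div_two t
    have h2 := Real.pi_lt_d2
    linarith
  have hy : ∀ t : ℝ, 0 ≤ t → spiral t ∈ space := fun t ht => ⟨t, ht, rfl⟩
  have hR : surjectiveSpan space = 0 := by
    refine le_antisymm ?_ zero_le
    refine iSup_le fun Z => iSup_le fun hZ => iSup_le fun hsurj => ?_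
    obtain ⟨h1, h2⟩ := hsurj
    have hg : Continuous fun p : space × space => ‖(p.1 : ℂ)‖ - ‖(p.2 : ℂ)‖ := by
      fun_prop
    have he1 : (⟨spiral 0, hy 0 le_rfl⟩ : space) ∈ Prod.fst '' Z := by rw [h1]; trivial
    have he2 : (⟨spiral 0, hy 0 le_rfl⟩ : space) ∈ Prod.snd '' Z := by rw [h2]; trivial
    obtain ⟨p, hp, hpe⟩ := he1
    obtain ⟨q, hq, hqe⟩ := he2
    have hmin : ∀ x : space, 2 ≤ ‖(x : ℂ)‖ := by
      rintro ⟨_, t, ht, rfl⟩
      have : 0 ≤ Real.arctan t := Real.arctan_nonneg.mpr ht
      simp only [norm_spiral]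
      linarith
    have hpl : ‖(p.1 : ℂ)‖ - ‖(p.2 : ℂ)‖ ≤ 0 := by
      rw [hpe]
      have := hmin p.2
      simp only [norm_spiral, Real.arctan_zero]
      linarith
    have hqr : 0 ≤ ‖(q.1 : ℂ)‖ - ‖(q.2 : ℂ)‖ := by
      rw [hqe]
      have := hmin q.1
      simp only [norm_spiral, Real.arctan_zero]
      linarith
    obtain ⟨w, hw, hw0⟩ := hZ.isPreconnected.intermediate_value hp hq hg.continuousOn
      ⟨hpl, hqr⟩
    have hww : w.1 = w.2 := by
      obtain ⟨⟨_, t, ht, rfl⟩, ⟨_, s, hs, rfl⟩⟩ := w
      simp only [norm_spiral] at hw0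
      have : t = s := Real.arctan_injective (by linarith)
      subst this
      rfl
    refine (iInf₂_le w hw).trans ?_
    rw [hww, edist_self]
  have hL : ENNReal.ofReal (4 - Real.pi) ≤ surjectiveSemispan space := by
    let f : Set.Ici (0 : ℝ) → space × space := fun t =>
      ((⟨spiral t, hy t t.2⟩ : space),
        (⟨spiral (t + Real.pi), hy _ (add_nonneg t.2 Real.pi_pos.le)⟩ : space))
    have hZc : IsConnected (Set.range f) := by
      have : ConnectedSpace (Set.Ici (0 : ℝ)) := isConnected_iff_connectedSpace.mp isConnected_Ici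
      refine isConnected_range ?_
      refine Continuous.prodMk ?_ ?_
      · exact (continuous_spiral.comp continuous_subtype_val).subtype_mk _
      · exact (continuous_spiral.comp
          (continuous_subtype_val.add continuous_const)).subtype_mk _
    have hZp : Prod.fst '' (Set.range f) = Set.univ ∨ Prod.snd '' (Set.range f) = Set.univ := by
      left
      ext x
      simp only [Set.mem_univ, iff_true]
      obtain ⟨_, t, ht, rfl⟩ := x
      exact ⟨_, ⟨⟨t, ht⟩, rfl⟩, rfl⟩
    refine le_iSup_of_le (Set.range f) (le_iSup_of_le hZc (le_iSup_of_le hZp ?_))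
    refine le_iInf₂ ?_
    rintro _ ⟨t, rfl⟩
    rw [edist_dist]
    exact ENNReal.ofReal_le_ofReal (dist_spiral t)
  rw [hR, mul_zero]
  refine lt_of_lt_of_le ?_ hL
  rw [ENNReal.ofReal_pos]
  have h2 := Real.pi_lt_d2
  linarith

end Pool.Agent.Results.MP_c087c9_gt.Disproof
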